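import Pool.Graph.R_pool_sql_team_seeded_63374d34.N132.Lit.DRDefs
import Pool.Agent.Helper56.HodgeUniv.Defs

/-!
# Representations of finite groups in the de Rham-Betti classes modulo algebraic classes: definitions
-/

open CategoryTheory AlgebraicGeometry

universe u

namespace Pool.Agent.Helper56.DRUniv

open Pool.Agent.H914 Pool.Agent.H914.VarClass Pool.Agent.H914.VarClass.Obj
  Pool.Agent.H914.WeilCohomology Pool.Agent.Helper56.HodgeUniv
open Pool.Agent.R920.MT (Property)

/-- A finite-dimensional representation over `K` of a finite group `Δ`. -/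
structure FinRep (K : Type) [Field K] where
  /-- the group -/
  Δ : Type
  [group : Group Δ]
  [finite : Finite Δ]
  /-- the space -/
  E : Type
  [add : AddCommGroup E]
  [mod : Module K E]
  [fin : Module.Finite K E]
  /-- the representation -/
  ρ : Representation K Δ E

attribute [instance] FinRep.group FinRep.finite FinRep.add FinRep.mod FinRep.fin

/-- The group `Δ` acts on the algebra `A` by the inverses of the endomorphisms `g d`. There is a
`Δ`-equivariant linear map from the space of the representation to `A` with values in `M`, and no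
nonzero vector is mapped to an element of `N`. -/
def EmbedsIn {K A : Type} [Field K] [Ring A] [Algebra K A] (F : FinRep K)
    (g : F.Δ → (A →ₐ[K] A)) (M N : A → Prop) : Prop :=
  ∃ φ : F.E →ₗ[K] A, (∀ e, M (φ e)) ∧ (∀ d e, φ (F.ρ d e) = g d⁻¹ (φ e)) ∧
    ∀ e, N (φ e) → e = 0

variable {k : Type u} [Field k] {𝒱 : VarClass k} {ops : CycleOps 𝒱}

/-- The classes of the algebraic cycles with rational coefficients of codimension `r`. -/
def IsAlg (W : WeilCohomology.{u, 0} ops) : Property W :=
  fun X r c => ∃ z, X.IsCyc r z ∧ W.cl X z = c

variable {W : WeilCohomology.{u, 0} ops}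

/-- All classes in `R` of codimension `r` on all varieties of dimension `m` are in `R'`. -/
def AllIn (R R' : Property W) (m r : ℕ) : Prop :=
  ∀ X : 𝒱.Obj, X.dim = m → ∀ c, R X r c → R' X r c

/-- The representation `F` of `Δ` occurs above `Y` in the classes of codimension `r` in `R` modulo
`R'`: there are a variety `X` of dimension `m`, an action of `Δ` on `X`, a `Δ`-invariant morphism
`q : X ⟶ Y` of degree `κ ≠ 0`, and a `Δ`-equivariant linear map from the space of `F` to the
cohomology of `X` whose values are classes in `R` of codimension `r`, and no nonzero vector is mapped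
to a class in `R'`. -/
def OccursIn (R R' : Property W) (Y : 𝒱.Obj) (m r : ℕ) (F : FinRep W.K) : Prop :=
  ∃ (X : 𝒱.Obj) (σ : F.Δ → (X ⟶ X)) (q : X ⟶ Y) (κ : ℚ), X.dim = m ∧ IsAction X σ ∧
    IsInvariantCover W σ q κ ∧ EmbedsIn F (fun d => W.map (σ d)) (R X r) (R' X r)

/-- Either all classes in `R` of codimension `r` on all varieties of dimension `m` are in `R'` (and
then nonzero representations do not occur), or all representations of all finite groups occur above
all varieties `Y` of dimension `m`. -/
def AllOrNothing (R R' : Property W) (m r : ℕ) : Prop :=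
  ∀ Y : 𝒱.Obj, Y.dim = m → (AllIn R R' m r ↔ ∃ F : FinRep W.K, ¬ OccursIn R R' Y m r F)

end Pool.Agent.Helper56.DRUniv
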