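import Pool.Graph.R_pool_sql_team_seeded_63374d34.N132.Lit.DRConv
import Pool.Agent.Helper56.HodgeUniv.Main
import Pool.Agent.Helper56.DRUniv.Defs

/-!
# Representations of finite groups in the de Rham-Betti classes modulo algebraic classes
-/

open CategoryTheory AlgebraicGeometry

universe u

namespace Pool.Agent.Helper56.DRUniv

open Pool.Agent.H914 Pool.Agent.H914.VarClass Pool.Agent.H914.VarClass.Obj
  Pool.Agent.H914.WeilCohomology Pool.Agent.Y121.AHS Pool.Agent.N132.Lit
open Pool.Agent.R920.MT (Property IsSystem IsMotivated isSystem_hodge)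
open Pool.Agent.Helper56.HodgeUniv

variable {k : Type u} [Field k] {𝒱 : VarClass k} {ops : CycleOps 𝒱}
  {W : WeilCohomology.{u, 0} ops} {R R' : Property W}

/-- The space spanned by the classes in `R`. -/
def sys (R : Property W) (r : ℕ) (X : 𝒱.Obj) : Submodule W.K (W.H X) :=
  Submodule.span W.K {c | R X r c}

/-- The classes in a class system form a space. -/
lemma mem_sys (hR : ClassSystem R) {r : ℕ} {X : 𝒱.Obj} {c : W.H X} :
    c ∈ sys R r X ↔ R X r c := by
  constructor
  · intro h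
    obtain ⟨V, hV⟩ := hR.1.lin X r
    have h1 : sys R r X ≤ V := Submodule.span_le.2 fun c hc => (hV c).2 hc
    exact (hV c).1 (h1 h)
  · exact fun h => Submodule.subset_span h

lemma sys_gr (hR : ClassSystem R) (r : ℕ) (X : 𝒱.Obj) : sys R r X ≤ W.gr X (2 * r) :=
  Submodule.span_le.2 fun c hc => hR.2 X r c hc

/-- Two class systems. -/
lemma pair_sys (hR : ClassSystem R) (hR' : ClassSystem R') (r : ℕ) :
    IsPair W r (sys R r) (sys R' r) where
  gr X := sys_gr hR r X
  alg X := by
    refine Submodule.span_le.2 ?_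
    rintro _ ⟨i, hi, z, hz, rfl⟩
    obtain rfl : i = r := by exact_mod_cast hi
    exact Submodule.subset_span (hR'.1.cl X i z hz)
  pull f a ha := (mem_sys hR).2 (hR.1.map _ _ f r a ((mem_sys hR).1 ha))
  push f hd a ha := (mem_sys hR').2 (hR'.1.push _ _ f r r a (by rw [hd]) ((mem_sys hR').1 ha))

/-- A class system and the algebraic classes. -/
lemma pair_alg (hR : ClassSystem R) (r : ℕ) :
    IsPair W r (sys R r) (fun X => spanCycles W X (r : ℤ)) where
  gr X := sys_gr hR r X
  alg _ := le_rfl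
  pull f a ha := (mem_sys hR).2 (hR.1.map _ _ f r a ((mem_sys hR).1 ha))
  push f hd _ ha := span_push f hd ha

/-- For rational coefficients the algebraic classes are the classes of the cycles. -/
lemma mem_span_iff (rat : ∀ r : W.K, ∃ q : ℚ, (q : W.K) = r) {r : ℕ} {X : 𝒱.Obj} {c : W.H X} :
    c ∈ spanCycles W X (r : ℤ) ↔ IsAlg W X r c := by
  constructor
  · intro h
    induction h using Submodule.span_induction with
    | mem c hc =>
      obtain ⟨i, hi, z, hz, rfl⟩ := hc
      obtain rfl : i = r := by exact_mod_cast hi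
      exact ⟨z, hz, rfl⟩
    | zero => exact ⟨0, SmVar.IsCyc.zero X.V r, map_zero _⟩
    | add a b _ _ ha hb =>
      obtain ⟨z, hz, rfl⟩ := ha
      obtain ⟨w, hw, rfl⟩ := hb
      exact ⟨z + w, hz.add hw, map_add _ _ _⟩
    | smul l a _ ha =>
      obtain ⟨z, hz, rfl⟩ := ha
      obtain ⟨q, rfl⟩ := rat l
      exact ⟨q • z, hz.smul q, W.cl_smul q z⟩
  · rintro ⟨z, hz, rfl⟩
    exact Submodule.subset_span ⟨r, rfl, z, hz, rfl⟩

/-- The general law. -/
theorem law {M N : ∀ X : 𝒱.Obj, Submodule W.K (W.H X)} {m r : ℕ} (h : IsPair W r M N)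
    (hP : HasInvariantIntersections W m) (hM : ∀ X c, c ∈ M X ↔ R X r c)
    (hN : ∀ X c, c ∈ N X ↔ R' X r c) : AllOrNothing R R' m r := by
  intro Y hY
  have e : AllIn R R' m r ↔ ∀ X : 𝒱.Obj, X.dim = m → M X ≤ N X :=
    ⟨fun h X hX c hc => (hN X c).2 (h X hX c ((hM X c).1 hc)),
      fun h X hX c hc => (hN X c).1 (h X hX ((hM X c).2 hc))⟩
  constructor
  · intro hA
    refine ⟨{ Δ := Unit, E := W.K, ρ := Representation.trivial W.K Unit W.K }, ?_⟩
    rintro ⟨X, σ, q, κ, h1, h2, h3, φ, h4, h5, h6⟩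
    exact one_ne_zero (h6 1 (hA X h1 _ (h4 1)))
  · rintro ⟨F, hF⟩
    rw [e]
    by_contra hne
    obtain ⟨X, σ, q, κ, h1, h2, h3, φ, h4, h5, h6⟩ := occurs_of_not h hP hY hne F.ρ
    exact hF ⟨X, σ, q, κ, h1, h2, h3, φ, fun e => (hM _ _).1 (h4 e), h5,
      fun e he => h6 e ((hN _ _).2 he)⟩

variable {T : HodgeTheory ops}

theorem classSystem_hodge (T : HodgeTheory ops) : ClassSystem (IsHodge T) :=
  ⟨isSystem_hodge (toH T), fun _ _ _ h => h.1⟩

theorem classSystem_drb (D : DeRham T) : ClassSystem (IsDRB D) :=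
  ⟨Pool.Agent.N132.DR.isSystem_drb (toDR D), fun _ _ _ h => h.1⟩

/-- **De Rham-Betti classes and algebraic classes.** -/
theorem drb_law (D : DeRham T) {m : ℕ} (hP : HasInvariantIntersections T.W m) (r : ℕ) :
    AllOrNothing (IsDRB D) (IsAlg T.W) m r :=
  law (pair_alg (classSystem_drb D) r) hP (fun _ _ => mem_sys (classSystem_drb D))
    (fun _ _ => mem_span_iff T.rat)

/-- **Two class systems.** -/
theorem sys_law (hR : ClassSystem R) (hR' : ClassSystem R') {m : ℕ}
    (hP : HasInvariantIntersections W m) (r : ℕ) : AllOrNothing R R' m r :=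
  law (pair_sys hR hR' r) hP (fun _ _ => mem_sys hR) (fun _ _ => mem_sys hR')

end Pool.Agent.Helper56.DRUniv
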